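import Pool.Agent.Helper28.BR.Defs

/-!
# BR, block GOOD: base change and simplicity (GB1, GB2), matrix algebras over finite fields (GC)
-/

set_option autoImplicit false

namespace Pool.Agent.Helper62.BR

open TensorProduct Pool.Agent.Helper28.BR

/-- **GB1.** -/
theorem az_baseChange {O L k : Type} [CommRing O] [Ring L] [Algebra O L] [CommRing k]
    [Algebra O k] (h : Az O L) : Az k (k ⊗[O] L) := by
  obtain ⟨N, g, f, hrep, hmat⟩ := h
  let f' : Fin N → (k ⊗[O] L) →ₗ[k] k := fun i =>
    (TensorProduct.AlgebraTensorModule.rid O k k).toLinearMap ∘ₗ (f i).baseChange k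
  have hf' : ∀ i (a : k) (y : L), f' i (a ⊗ₜ[O] y) = f i y • a := fun i a y => by
    simp only [f', LinearMap.comp_apply, LinearMap.baseChange_tmul, LinearEquiv.coe_coe,
      TensorProduct.AlgebraTensorModule.rid_tmul]
  refine ⟨N, fun i => (1 : k) ⊗ₜ[O] g i, f', fun x => ?_, fun i j => ?_⟩
  · induction x using TensorProduct.induction_on with
    | zero => simp
    | tmul a y =>
      conv_lhs => rw [hrep y]
      rw [TensorProduct.tmul_sum]
      refine Finset.sum_congr rfl fun i _ => ?_
      rw [hf', TensorProduct.smul_tmul', smul_eq_mul, mul_one, TensorProduct.tmul_smul,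
        TensorProduct.smul_tmul']
    | add x y hx hy =>
      rw [Finset.sum_congr rfl fun i _ => show f' i (x + y) • ((1 : k) ⊗ₜ[O] g i) =
        f' i x • ((1 : k) ⊗ₜ[O] g i) + f' i y • ((1 : k) ⊗ₜ[O] g i) by
          rw [map_add, add_smul], Finset.sum_add_distrib, ← hx, ← hy]
  · obtain ⟨t, ht⟩ := hmat i j
    refine ⟨fun a b => algebraMap O k (t a b), fun x => ?_⟩
    induction x using TensorProduct.induction_on with
    | zero => simp
    | tmul a y =>
      have h1 := congrArg (fun z => a ⊗ₜ[O] z) (ht y)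
      simp only [TensorProduct.tmul_sum] at h1
      rw [hf', TensorProduct.smul_tmul', smul_eq_mul, mul_one, ← TensorProduct.smul_tmul',
        ← TensorProduct.tmul_smul, h1]
      refine Finset.sum_congr rfl fun c _ => Finset.sum_congr rfl fun d _ => ?_
      rw [algebraMap_smul, Algebra.TensorProduct.tmul_mul_tmul, Algebra.TensorProduct.tmul_mul_tmul,
        one_mul, mul_one, TensorProduct.tmul_smul]
    | add x y hx hy =>
      rw [map_add, add_smul, hx, hy, ← Finset.sum_add_distrib]
      refine Finset.sum_congr rfl fun c _ => ?_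
      rw [← Finset.sum_add_distrib]
      refine Finset.sum_congr rfl fun d _ => ?_
      rw [mul_add, add_mul, smul_add]

/-- **GB2.** -/
theorem simple_of_az {k C : Type} [Field k] [Ring C] [Algebra k C] [Nontrivial C] (h : Az k C) :
    IsSimpleRing C ∧ Algebra.IsCentral k C := by
  obtain ⟨N, g, f, hrep, hmat⟩ := h
  have hex : ∀ x : C, x ≠ 0 → ∃ j, f j x ≠ 0 := by
    intro x hx
    by_contra hc
    push Not at hc
    apply hx
    rw [hrep x]
    exact Finset.sum_eq_zero fun i _ => by rw [hc i, zero_smul]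
  constructor
  · refine IsSimpleRing.of_eq_bot_or_eq_top fun I => ?_
    rw [or_iff_not_imp_left, ← I.one_mem_iff]
    intro hI
    obtain ⟨x, hx1, hx2⟩ := SetLike.exists_of_lt (bot_lt_iff_ne_bot.mpr hI : ⊥ < I)
    have hx0 : x ≠ 0 := hx2
    obtain ⟨j, hj⟩ := hex x hx0
    have hsm : ∀ (c : k) (y : C), y ∈ I → c • y ∈ I := fun c y hy => by
      rw [Algebra.smul_def]
      exact I.mul_mem_left _ _ hy
    have hg : ∀ i, g i ∈ I := by
      intro i
      obtain ⟨t, ht⟩ := hmat i j
      have h1 : f j x • g i ∈ I := by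
        rw [ht x]
        refine sum_mem fun a _ => sum_mem fun b _ => hsm _ _ ?_
        exact I.mul_mem_right _ _ (I.mul_mem_left _ _ hx1)
      have h2 := hsm (f j x)⁻¹ _ h1
      rwa [smul_smul, inv_mul_cancel₀ hj, one_smul] at h2
    rw [hrep 1]
    exact sum_mem fun i _ => hsm _ _ (hg i)
  · refine ⟨fun z hz => ?_⟩
    rw [Subalgebra.mem_center_iff] at hz
    obtain ⟨j, hj⟩ := hex 1 one_ne_zero
    have h1 : ∀ i, f j z • g i = f j 1 • (z * g i) := by
      intro i
      obtain ⟨t, ht⟩ := hmat i j
      have h2 := ht z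
      have h3 := ht 1
      rw [h2, ← mul_smul_comm, h3, Finset.mul_sum]
      refine Finset.sum_congr rfl fun a _ => ?_
      rw [Finset.mul_sum]
      refine Finset.sum_congr rfl fun b _ => ?_
      rw [mul_smul_comm, mul_one, ← mul_assoc z, ← hz (g a)]
    have h4 : f j z • (1 : C) = f j 1 • z := by
      have h5 : ∀ c d : k, (∀ i, c • g i = d • (z * g i)) → c • (1 : C) = d • z := by
        intro c d hcd
        conv_lhs => rw [hrep 1]
        conv_rhs => rw [← mul_one z, hrep 1]
        rw [Finset.smul_sum, Finset.mul_sum, Finset.smul_sum]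
        refine Finset.sum_congr rfl fun i _ => ?_
        rw [smul_comm, hcd i, mul_smul_comm, smul_comm]
      exact h5 _ _ h1
    rw [Algebra.mem_bot]
    refine ⟨(f j 1)⁻¹ * f j z, ?_⟩
    rw [Algebra.algebraMap_eq_smul_one, mul_smul, h4, smul_smul, inv_mul_cancel₀ hj, one_smul]

/-- **GC.** -/
theorem matrix_of_finite {k C : Type} [Field k] [Finite k] [Ring C] [Algebra k C]
    [FiniteDimensional k C] (hs : IsSimpleRing C) (hc : Algebra.IsCentral k C) (m : ℕ)
    (hm : Module.finrank k C = m ^ 2) : Nonempty (C ≃ₐ[k] Matrix (Fin m) (Fin m) k) := by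
  have : IsArtinianRing C := IsArtinianRing.of_finite k C
  obtain ⟨n, hn, D, hD, hA, hfin, ⟨e⟩⟩ :=
    IsSimpleRing.exists_algEquiv_matrix_divisionRing_finite k C
  have hDf : Finite D := Module.finite_of_finite k
  have hcomm : ∀ x y : D, x * y = y * x := fun x y => (littleWedderburn D).mul_comm x y
  have hsur : Function.Surjective (algebraMap k D) := by
    intro d
    have h1 : e.symm (Matrix.scalar (Fin n) d) ∈ Subalgebra.center k C := by
      rw [Subalgebra.mem_center_iff]
      intro b
      apply e.injective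
      rw [map_mul, map_mul, e.apply_symm_apply]
      exact (Matrix.scalar_commute d (fun r => hcomm d r) (e b)).eq.symm
    obtain ⟨c, hc1⟩ := Algebra.mem_bot.1 (hc.out h1)
    refine ⟨c, ?_⟩
    have h2 := congrArg e hc1
    rw [e.apply_symm_apply, AlgEquiv.commutes] at h2
    have h3 := congrFun (congrFun h2 0) 0
    rw [Matrix.algebraMap_matrix_apply, if_pos rfl] at h3
    rw [h3, Matrix.scalar_apply, Matrix.diagonal_apply_eq]
  let φ : k ≃ₐ[k] D := AlgEquiv.ofBijective (Algebra.ofId k D)
    ⟨(algebraMap k D).injective, hsur⟩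
  let ψ : C ≃ₐ[k] Matrix (Fin n) (Fin n) k := e.trans φ.symm.mapMatrix
  have hfr : Module.finrank k C = n ^ 2 := by
    rw [ψ.toLinearEquiv.finrank_eq, Module.finrank_matrix, Module.finrank_self, Fintype.card_fin]
    ring
  have hnm : n = m := by
    have := hfr.symm.trans hm
    exact Nat.pow_left_injective (n := 2) (by norm_num) this
  subst hnm
  exact ⟨ψ⟩

end Pool.Agent.Helper62.BR
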